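import Mathlib
import Pool.Agent.X285.PA.GpB
import Pool.Agent.X285.PA.Slv
import Pool.Agent.H391R2.T4.Gp
import Pool.Agent.H391R2.T4.Red

/-!
# Perfect covers: a perfect group `Q` mapping onto a given perfect group `P` such that the kernel
maps onto a given group `G`
-/

set_option autoImplicit false
set_option linter.unusedSectionVars false

namespace Pool.Agent.X325.PA

open Equiv Pool.Agent.H391R2 Pool.Agent.Y793 Pool.Agent.Y241.WR Pool.Agent.X285.PA

open scoped commutatorElement

/-- The elements of `G ≀ P` with trivial product in `G^ab`. -/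
noncomputable def QQ (G : Type) [Group G] {n : ℕ} (P : Subgroup (Perm (Fin n))) :
    Subgroup (Wr G n) :=
  P.comap SemidirectProduct.rightHom ⊓ (wc G n).ker

section

variable {G : Type} [Group G] {n : ℕ} {P : Subgroup (Perm (Fin n))}

theorem mem_QQ (x : Wr G n) :
    x ∈ QQ G P ↔ x.right ∈ P ∧ ∏ i, Abelianization.of (x.left i) = 1 := Iff.rfl

theorem inl_mem_QQ {f : Fin n → G} (hf : ∏ i, Abelianization.of (f i) = 1) :
    (SemidirectProduct.inl f : Wr G n) ∈ QQ G P := by
  rw [mem_QQ]
  exact ⟨by rw [SemidirectProduct.right_inl]; exact one_mem P, hf⟩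

theorem inr_mem_QQ {σ : Perm (Fin n)} (hσ : σ ∈ P) :
    (SemidirectProduct.inr σ : Wr G n) ∈ QQ G P := by
  rw [mem_QQ]
  refine ⟨hσ, ?_⟩
  rw [SemidirectProduct.left_inr]
  simp

theorem pair_prod (a b : Fin n) (g : G) :
    ∏ i, Abelianization.of ((Pi.mulSingle a g * Pi.mulSingle b g⁻¹ : Fin n → G) i) = 1 := by
  classical
  have h1 : ∀ (a : Fin n) (u : G), ∏ i, Abelianization.of
      ((Pi.mulSingle a u : Fin n → G) i) = Abelianization.of u := by
    intro a u
    rw [Finset.prod_eq_single a]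
    · rw [Pi.mulSingle_eq_same]
    · intro j _ hj
      rw [Pi.mulSingle_eq_of_ne hj, map_one]
    · intro h; exact absurd (Finset.mem_univ a) h
  simp only [Pi.mul_apply, map_mul, Finset.prod_mul_distrib]
  rw [h1, h1, map_inv, mul_inv_cancel]

/-- The element with entries `g` at `a` and `g⁻¹` at `b`. -/
def uu (a b : Fin n) (g : G) : Wr G n :=
  SemidirectProduct.inl (Pi.mulSingle a g * Pi.mulSingle b g⁻¹ : Fin n → G)

theorem uu_mem (a b : Fin n) (g : G) : uu a b g ∈ QQ G P := inl_mem_QQ (pair_prod a b g)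

theorem uu_mul (a b c : Fin n) (g : G) : (uu a c g : Wr G n) = uu a b g * uu b c g := by
  unfold uu
  rw [← map_mul]
  congr 1
  rw [mul_assoc, ← mul_assoc (Pi.mulSingle b g⁻¹ : Fin n → G), ← Pi.mulSingle_mul, inv_mul_cancel,
    Pi.mulSingle_one, one_mul]

theorem uu_conj (σ : Perm (Fin n)) (a b : Fin n) (g : G) :
    (SemidirectProduct.inr σ : Wr G n) * uu a b g * (SemidirectProduct.inr σ)⁻¹ =
      uu (σ a) (σ b) g := by
  have hs : ∀ (a : Fin n) (g : G) (j : Fin n), (Pi.mulSingle a g : Fin n → G) (σ⁻¹ j) =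
      (Pi.mulSingle (σ a) g : Fin n → G) j := by
    intro a g j
    rw [Pi.mulSingle_apply, Pi.mulSingle_apply]
    congr 1
    apply propext
    constructor
    · intro h
      rw [← h]
      simp
    · intro h
      rw [h]
      simp
  unfold uu
  apply SemidirectProduct.ext
  · funext j
    rw [wr_mul_left, wr_mul_left, wr_inv_left]
    simp only [SemidirectProduct.left_inl, SemidirectProduct.right_inl,
      SemidirectProduct.left_inr, SemidirectProduct.right_inr,
      Pi.one_apply, one_mul, inv_one, mul_one, Pi.mul_apply]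
    rw [hs, hs]
  · simp

/-- `QQ G P` is perfect if `P` is perfect and transitive. -/
theorem qq_perf (hn : 3 ≤ n) (hP : commutator P = ⊤) (htr : ∀ i j, ∃ σ ∈ P, σ i = j) :
    ⁅QQ G P, QQ G P⁆ = QQ G P := by
  classical
  refine le_antisymm (Subgroup.commutator_le_self _) ?_
  have hPP : ⁅P, P⁆ = P := by
    rw [← Subgroup.map_subtype_commutator, hP, ← MonoidHom.range_eq_map, Subgroup.range_subtype]
  -- pairs
  have hpair0 : ∀ (a : Fin n) (g : G) (σ : P), (uu a (σ.1 a) g : Wr G n) ∈ ⁅QQ G P, QQ G P⁆ := by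
    intro a g
    let φ : P →* Abelianization (QQ G P) := MonoidHom.mk'
      (fun σ => Abelianization.of ⟨uu a (σ.1 a) g, uu_mem _ _ _⟩) (fun σ τ => by
        have h1 : (⟨uu a ((σ * τ).1 a) g, uu_mem _ _ _⟩ : QQ G P) =
            ⟨uu a (σ.1 a) g, uu_mem _ _ _⟩ *
              ((⟨SemidirectProduct.inr σ.1, inr_mem_QQ σ.2⟩ : QQ G P) *
                ⟨uu a (τ.1 a) g, uu_mem _ _ _⟩ *
                (⟨SemidirectProduct.inr σ.1, inr_mem_QQ σ.2⟩ : QQ G P)⁻¹) := by
          apply Subtype.ext
          change uu a (σ.1 (τ.1 a)) g = uu a (σ.1 a) g *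
            ((SemidirectProduct.inr σ.1 : Wr G n) * uu a (τ.1 a) g *
              (SemidirectProduct.inr σ.1)⁻¹)
          rw [uu_conj, ← uu_mul]
        rw [h1, map_mul, map_mul, map_mul, map_inv, mul_comm (Abelianization.of _)
          (Abelianization.of (⟨uu a (τ.1 a) g, uu_mem _ _ _⟩ : QQ G P)), mul_inv_cancel_right])
    intro σ
    have h2 : φ σ = 1 := perf_solv hP φ (inferInstance : Group.IsSolvable _) σ
    have h3 : (⟨uu a (σ.1 a) g, uu_mem _ _ _⟩ : QQ G P) ∈ commutator (QQ G P) := of_eq_one.1 h2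
    rw [← Subgroup.map_subtype_commutator]
    exact ⟨_, h3, rfl⟩
  have hpair : ∀ (a b : Fin n) (g : G), (uu a b g : Wr G n) ∈ ⁅QQ G P, QQ G P⁆ := by
    intro a b g
    obtain ⟨σ, hσ, rfl⟩ := htr a b
    exact hpair0 a g ⟨σ, hσ⟩
  -- single commutators
  have hsing : ∀ (a : Fin n) (g h : G), (SemidirectProduct.inl
      (Pi.mulSingle a ⁅g, h⁆ : Fin n → G) : Wr G n) ∈ ⁅QQ G P, QQ G P⁆ := by
    intro a g h
    obtain ⟨b, hb⟩ := exists_notMem ({a} : Finset (Fin n)) (by
      rw [Finset.card_singleton]; omega)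
    obtain ⟨c, hc⟩ := exists_notMem ({a, b} : Finset (Fin n))
      (lt_of_le_of_lt Finset.card_le_two (by omega))
    simp only [Finset.mem_insert, Finset.mem_singleton, not_or, ← ne_eq] at hb hc
    obtain ⟨hca, hcb⟩ := hc
    have h1 := Subgroup.commutator_mem_commutator
      (uu_mem (P := P) a b g) (uu_mem (P := P) a c h)
    unfold uu at h1
    rw [← map_commutatorElement] at h1
    have h2 : ⁅(Pi.mulSingle a g * Pi.mulSingle b g⁻¹ : Fin n → G),
        (Pi.mulSingle a h * Pi.mulSingle c h⁻¹ : Fin n → G)⁆ = Pi.mulSingle a ⁅g, h⁆ := by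
      funext j
      simp only [commutatorElement_def, Pi.mul_apply, Pi.inv_apply]
      by_cases h3 : j = a
      · subst h3
        simp [Pi.mulSingle_apply, hb.symm, hca.symm]
      · by_cases h4 : j = b
        · subst h4
          simp [Pi.mulSingle_apply, hb, hcb.symm]
        · simp [Pi.mulSingle_apply, h3, h4]
    rwa [h2] at h1
  -- the base
  have hbase : ∀ f : Fin n → G, ∏ i, Abelianization.of (f i) = 1 →
      (SemidirectProduct.inl f : Wr G n) ∈ ⁅QQ G P, QQ G P⁆ := by
    refine all_gen ((⁅QQ G P, QQ G P⁆).comap SemidirectProduct.inl) ?_ ?_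
    · intro a c hc
      have h1 : commutator G ≤ ((⁅QQ G P, QQ G P⁆).comap
          ((SemidirectProduct.inl : (Fin n → G) →* Wr G n).comp
            (MonoidHom.mulSingle (fun _ : Fin n => G) a))) := by
        rw [commutator_def, Subgroup.commutator_le]
        intro u _ v _
        exact hsing a u v
      exact h1 hc
    · intro a d had g
      obtain ⟨g, rfl⟩ := QuotientGroup.mk_surjective g
      refine ⟨Pi.mulSingle a g * Pi.mulSingle d g⁻¹, hpair a d g, ?_⟩
      rw [map_mul, pim_single, pim_single]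
      rfl
  have hinr : ∀ σ : Perm (Fin n), σ ∈ P →
      (SemidirectProduct.inr σ : Wr G n) ∈ ⁅QQ G P, QQ G P⁆ := by
    intro σ hσ
    have h1 : P ≤ (⁅QQ G P, QQ G P⁆).comap (SemidirectProduct.inr : Perm (Fin n) →* Wr G n) := by
      conv_lhs => rw [← hPP]
      rw [Subgroup.commutator_le]
      intro a ha b hb
      rw [Subgroup.mem_comap, map_commutatorElement]
      exact Subgroup.commutator_mem_commutator (inr_mem_QQ ha) (inr_mem_QQ hb)
    exact h1 hσ
  intro w hw
  rw [← SemidirectProduct.inl_left_mul_inr_right w]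
  exact Subgroup.mul_mem _ (hbase _ hw.2) (hinr _ hw.1)

end

theorem perf_congr {A B : Type} [Group A] [Group B] (f : A →* B) (hf : Function.Surjective f)
    (hA : commutator A = ⊤) : commutator B = ⊤ := by
  have h1 := Subgroup.map_commutator (⊤ : Subgroup A) ⊤ f
  rw [← commutator_def, hA, ← MonoidHom.range_eq_map, MonoidHom.range_eq_top.2 hf] at h1
  rw [commutator_def]
  exact h1.symm

theorem card_perf {P : Type} [Group P] [Finite P] [Nontrivial P] (hP : commutator P = ⊤) :
    3 ≤ Nat.card P := by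
  have h1 : 1 < Nat.card P := Finite.one_lt_card
  by_contra hcon
  have h2 : Nat.card P = 2 := by omega
  have : Fact (Nat.Prime 2) := ⟨Nat.prime_two⟩
  have hc : IsCyclic P := isCyclic_of_prime_card h2
  have h3 : commutator P = ⊥ := by
    rw [commutator_def, Subgroup.commutator_eq_bot_iff_le_centralizer]
    intro x _
    rw [Subgroup.mem_centralizer_iff]
    intro y _
    have := IsCyclic.isMulCommutative (α := P)
    exact mul_comm' y x
  rw [h3] at hP
  exact (bot_ne_top : (⊥ : Subgroup P) ≠ ⊤) hP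

/-- A perfect group `Q` mapping onto `P` such that the kernel maps onto `G`. -/
theorem exists_cover (G P : Type) [Group G] [Finite G] [Group P] [Finite P] [Nontrivial P]
    (hP : commutator P = ⊤) :
    ∃ (Q : Type) (_ : Group Q) (_ : Finite Q) (π : Q →* P) (c : π.ker →* G),
      commutator Q = ⊤ ∧ Function.Surjective π ∧ Function.Surjective c := by
  classical
  obtain ⟨n, hn⟩ : ∃ n, n = Nat.card P := ⟨_, rfl⟩
  have hn3 : 3 ≤ n := hn ▸ card_perf hP
  let ε : P ≃ Fin n := hn ▸ Finite.equivFin P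
  let f : P →* Perm (Fin n) := ε.permCongrHom.toMonoidHom.comp (MulAction.toPermHom P P)
  have hf : Function.Injective f :=
    ε.permCongrHom.injective.comp (MulAction.toPerm_injective (α := P) (β := P))
  let e : P ≃* f.range := MonoidHom.ofInjective hf
  have htr : ∀ i j, ∃ σ ∈ f.range, σ i = j := by
    intro i j
    refine ⟨f (ε.symm j * (ε.symm i)⁻¹), ⟨_, rfl⟩, ?_⟩
    change ε ((ε.symm j * (ε.symm i)⁻¹) * ε.symm i) = j
    rw [inv_mul_cancel_right, Equiv.apply_symm_apply]
  have hP' : commutator f.range = ⊤ := perf_congr e.toMonoidHom e.surjective hP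
  have hfW : Finite (Wr G n) := Pool.Agent.H391R2.T4.finite_wr G n
  let π : QQ G f.range →* P := e.symm.toMonoidHom.comp
    (((SemidirectProduct.rightHom : Wr G n →* Perm (Fin n)).comp (QQ G f.range).subtype).codRestrict
      f.range (fun x => x.2.1))
  have hker : ∀ x : π.ker, ((x : QQ G f.range) : Wr G n).right = 1 := by
    intro x
    have h1 : π x = 1 := x.2
    have h2 := (map_eq_one_iff e.symm e.symm.injective).1 h1
    exact congrArg Subtype.val h2
  let i₀ : Fin n := ⟨0, by omega⟩
  let j₀ : Fin n := ⟨1, by omega⟩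
  have hij : i₀ ≠ j₀ := by
    intro h
    have := congrArg Fin.val h
    simp [i₀, j₀] at this
  let c : π.ker →* G := MonoidHom.mk' (fun x => ((x : QQ G f.range) : Wr G n).left i₀)
    (fun a b => by
      change (((a : QQ G f.range) : Wr G n) * ((b : QQ G f.range) : Wr G n)).left i₀ = _
      rw [wr_mul_left, hker a]
      rfl)
  refine ⟨QQ G f.range, inferInstance, inferInstance, π, c, ?_, ?_, ?_⟩
  · have h1 := qq_perf (G := G) hn3 hP' htr
    rw [← Subgroup.map_subtype_commutator] at h1
    rw [eq_top_iff]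
    intro x _
    have h2 : (x : Wr G n) ∈ (commutator (QQ G f.range)).map (QQ G f.range).subtype := by
      rw [h1]
      exact x.2
    obtain ⟨y, hy, hyx⟩ := h2
    rwa [Subtype.ext hyx] at hy
  · intro y
    refine ⟨⟨SemidirectProduct.inr (e y : Perm (Fin n)), inr_mem_QQ (e y).2⟩, ?_⟩
    change e.symm ⟨(SemidirectProduct.inr (e y : Perm (Fin n)) : Wr G n).right, _⟩ = y
    rw [MulEquiv.symm_apply_eq]
    rfl
  · intro a
    have h1 : (uu i₀ j₀ a : Wr G n).right = 1 := SemidirectProduct.right_inl _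
    refine ⟨⟨⟨uu i₀ j₀ a, uu_mem _ _ _⟩, ?_⟩, ?_⟩
    · rw [MonoidHom.mem_ker]
      change e.symm ⟨(uu i₀ j₀ a : Wr G n).right, _⟩ = 1
      rw [map_eq_one_iff e.symm e.symm.injective]
      exact Subtype.ext h1
    · change (Pi.mulSingle i₀ a * Pi.mulSingle j₀ a⁻¹ : Fin n → G) i₀ = a
      rw [Pi.mul_apply, Pi.mulSingle_eq_same, Pi.mulSingle_eq_of_ne hij, mul_one]

end Pool.Agent.X325.PA
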