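import Mathlib
import Pool.Agent.X325.IG.Pow
import Pool.Agent.X285.PA.Fld

/-!
# Towers of direct products
-/

set_option autoImplicit false
set_option linter.unusedSectionVars false

namespace Pool.Agent.X325.PA

open Pool.Agent.TH444.TW (RegularOver IsInnerPower Cls)
open Pool.Agent.TH15.IGP (Lim)
open IntermediateField AlgEquiv

/-- The products `A 0 × ... × A (i - 1)`. -/
def WT (A : ℕ → Type) : ℕ → Type
  | 0 => PUnit
  | i + 1 => WT A i × A i

/-- Their group structure. -/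
instance wtGroup (A : ℕ → Type) [∀ i, Group (A i)] : ∀ i, Group (WT A i)
  | 0 => inferInstanceAs (Group PUnit)
  | i + 1 => by
    have := wtGroup A i
    exact inferInstanceAs (Group (WT A i × A i))

section

variable (A : ℕ → Type) [∀ i, Group (A i)]

/-- The projections. -/
def wp (i : ℕ) : WT A (i + 1) →* WT A i := MonoidHom.fst (WT A i) (A i)

/-- The last components. -/
def wq (i : ℕ) : WT A (i + 1) →* A i := MonoidHom.snd (WT A i) (A i)

/-- The inclusions of the last factor. -/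
def wi (i : ℕ) : A i →* WT A (i + 1) := MonoidHom.inr (WT A i) (A i)

/-- The sections. -/
def ws (i : ℕ) : WT A i →* WT A (i + 1) := MonoidHom.inl (WT A i) (A i)

/-- The pairs. -/
def mk (i : ℕ) (x : WT A i) (a : A i) : WT A (i + 1) := (x, a)

theorem wp_mk (i : ℕ) (x : WT A i) (a : A i) : wp A i (mk A i x a) = x := rfl

theorem wq_mk (i : ℕ) (x : WT A i) (a : A i) : wq A i (mk A i x a) = a := rfl

theorem wt_ext {i : ℕ} {x y : WT A (i + 1)} (h1 : wp A i x = wp A i y)
    (h2 : wq A i x = wq A i y) : x = y := Prod.ext h1 h2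

theorem wp_wi (i : ℕ) (a : A i) : wp A i (wi A i a) = 1 := rfl

theorem wq_wi (i : ℕ) (a : A i) : wq A i (wi A i a) = a := rfl

theorem wp_ws (i : ℕ) (x : WT A i) : wp A i (ws A i x) = x := rfl

theorem wq_ws (i : ℕ) (x : WT A i) : wq A i (ws A i x) = 1 := rfl

theorem inner_wp (i : ℕ) : IsInnerPower (A i) (wp A i) := by
  refine ⟨1, 1, (wi A i).comp (Pi.evalMonoidHom (fun _ : Fin 1 => A i) 0), ws A i, ?_, ?_,
    fun w => wp_ws A i w, fun w x => ?_⟩
  · intro x y hxy
    have h1 : wq A i (wi A i (x 0)) = wq A i (wi A i (y 0)) := congrArg (wq A i) hxy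
    rw [wq_wi, wq_wi] at h1
    funext j
    rw [Subsingleton.elim j 0, h1]
  · ext x
    constructor
    · rintro ⟨y, rfl⟩
      rw [MonoidHom.mem_ker]
      exact wp_wi A i (y 0)
    · intro hx
      rw [MonoidHom.mem_ker] at hx
      refine ⟨fun _ => wq A i x, ?_⟩
      apply wt_ext
      · rw [hx]
        exact wp_wi A i _
      · exact wq_wi A i _
  · apply wt_ext
    · rw [map_mul, map_mul]
      change wp A i (ws A i w) * wp A i (wi A i (x 0)) = wp A i (wi A i _) * wp A i (ws A i w)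
      rw [wp_wi, wp_wi, one_mul, mul_one]
    · rw [map_mul, map_mul]
      change wq A i (ws A i w) * wq A i (wi A i (x 0)) = wq A i (wi A i _) * wq A i (ws A i w)
      rw [wq_wi, wq_wi, wq_ws, one_mul, mul_one]
      change x 0 = (1 : A i) * x 0 * (1 : A i)⁻¹
      rw [one_mul, inv_one, mul_one]

/-- The first group is trivial. -/
noncomputable def we0 (K : Type) [Field K] : WT A 0 ≃* (K ≃ₐ[K] K) where
  toFun := fun _ => 1
  invFun := fun _ => 1
  left_inv := fun _ => Subsingleton.elim (α := PUnit) _ _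
  right_inv := fun _ => Pool.Agent.Y140.IG.aut_self _ _
  map_mul' := fun _ _ => Pool.Agent.Y140.IG.aut_self _ _

/-- The sequence with given components. -/
def seq (y : ∀ i, A i) : ∀ i, WT A i
  | 0 => (PUnit.unit : PUnit)
  | i + 1 => mk A i (seq y i) (y i)

/-- The components of the limit. -/
def cmp (i : ℕ) : Lim (wp A) →* A i :=
  (wq A i).comp ((Pi.evalMonoidHom (WT A) (i + 1)).comp (Lim (wp A)).subtype)

theorem cmp_surj (y : ∀ i, A i) : ∃ x : Lim (wp A), ∀ i, cmp A i x = y i :=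
  ⟨⟨seq A y, fun i => wp_mk A i _ _⟩, fun i => wq_mk A i (seq A y i) (y i)⟩

end

/-- The product of a sequence of groups which occur regularly. -/
theorem prod_regular (K : Type) [Field K] (A : ℕ → Type) [∀ i, Group (A i)] [∀ i, Finite (A i)]
    (hA : ∀ i, RegularOver K (A i)) :
    ∃ (Ω : Type) (_ : Field Ω) (_ : Algebra (RatFunc K) Ω) (_ : Algebra K Ω)
      (_ : IsScalarTower K (RatFunc K) Ω) (_ : IsGalois (RatFunc K) Ω)
      (q : ∀ i, (Ω ≃ₐ[RatFunc K] Ω) →* A i),
      (∀ i, IsOpen ((q i).ker : Set (Ω ≃ₐ[RatFunc K] Ω))) ∧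
      (∀ y : ∀ i, A i, ∃ σ, ∀ i, q i σ = y i) ∧
      ∀ y : Ω, IsAlgebraic K y → y ∈ Set.range (algebraMap K Ω) := by
  obtain ⟨F, i1, i2, i3, i4, i5, i6, i7, γ, hopen, -, hreg⟩ :=
    Pool.Agent.TH444.TW.cls_regular K K (WT A) (wp A)
      (fun i => Cls.inner (wp A i) (A i) (hA i) (inner_wp A i)) (we0 A K)
  have h34 : i4 = i3 := Algebra.algebra_ext i4 i3 (fun x =>
    @IsScalarTower.algebraMap_apply K K F _ _ _ _ i3 i4 i6 x)
  subst h34
  refine ⟨F, i1, i2, i4, i5, i7, fun i => (cmp A i).comp γ.toMonoidHom, fun i => ?_, fun y => ?_,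
    hreg⟩
  · have h1 : IsOpen ((((Pi.evalMonoidHom (WT A) (i + 1)).comp
        (Lim (wp A)).subtype).comp γ.toMonoidHom).ker : Set (F ≃ₐ[RatFunc K] F)) := hopen (i + 1)
    refine Subgroup.isOpen_mono (fun σ hσ => ?_) h1
    rw [MonoidHom.mem_ker] at hσ ⊢
    change wq A i ((((Pi.evalMonoidHom (WT A) (i + 1)).comp
        (Lim (wp A)).subtype).comp γ.toMonoidHom) σ) = 1
    rw [hσ, map_one]
  · obtain ⟨x, hx⟩ := cmp_surj A y
    refine ⟨γ.symm x, fun i => ?_⟩
    change cmp A i (γ (γ.symm x)) = y i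
    rw [MulEquiv.apply_symm_apply, hx]

/-- The same over Hilbertian fields. -/
theorem prod_hilb (K : Type) [Field K] (hK : Pool.Agent.H391R2.T4.HilbField K) (A : ℕ → Type)
    [∀ i, Group (A i)] [∀ i, Finite (A i)] (hA : ∀ i, RegularOver K (A i)) :
    ∃ (Ω : Type) (_ : Field Ω) (_ : Algebra K Ω) (_ : IsGalois K Ω)
      (q : ∀ i, (Ω ≃ₐ[K] Ω) →* A i),
      (∀ i, IsOpen ((q i).ker : Set (Ω ≃ₐ[K] Ω))) ∧
      (∀ y : ∀ i, A i, ∃ σ, ∀ i, q i σ = y i) := by
  obtain ⟨F, i1, i2, i3, i4, i5, γ, hopen, -⟩ :=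
    Pool.Agent.TH444.TW.cls_hilb hK (WT A) (wp A)
      (fun i => Cls.inner (wp A i) (A i) (hA i) (inner_wp A i)) K (we0 A K)
  have h23 : i3 = i2 := Algebra.algebra_ext i3 i2 (fun x =>
    (@IsScalarTower.algebraMap_apply K K F _ _ _ _ i3 i2 i4 x).symm)
  subst h23
  refine ⟨F, i1, i3, i5, fun i => (cmp A i).comp γ.toMonoidHom, fun i => ?_, fun y => ?_⟩
  · have h1 : IsOpen ((((Pi.evalMonoidHom (WT A) (i + 1)).comp
        (Lim (wp A)).subtype).comp γ.toMonoidHom).ker : Set (F ≃ₐ[K] F)) := hopen (i + 1)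
    refine Subgroup.isOpen_mono (fun σ hσ => ?_) h1
    rw [MonoidHom.mem_ker] at hσ ⊢
    change wq A i ((((Pi.evalMonoidHom (WT A) (i + 1)).comp
        (Lim (wp A)).subtype).comp γ.toMonoidHom) σ) = 1
    rw [hσ, map_one]
  · obtain ⟨x, hx⟩ := cmp_surj A y
    refine ⟨γ.symm x, fun i => ?_⟩
    change cmp A i (γ (γ.symm x)) = y i
    rw [MulEquiv.apply_symm_apply, hx]

section

variable {k Ω : Type} [Field k] [Field Ω] [Algebra k Ω] [IsGalois k Ω]

/-- The fields. -/
theorem fields (A : ℕ → Type) [∀ i, Group (A i)] (q : ∀ i, Gal(Ω/k) →* A i)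
    (hopen : ∀ i, IsOpen ((q i).ker : Set Gal(Ω/k)))
    (hsurj : ∀ w : ∀ i, A i, ∃ σ, ∀ i, q i σ = w i)
    (Q : ℕ → Type) [∀ i, Group (Q i)] (f : ∀ i, A i →* Q i)
    (hf : ∀ i, Function.Surjective (f i)) (G : ℕ → Type) [∀ i, Group (G i)]
    (g : ∀ i, (f i).ker →* G i) (hg : ∀ i, Function.Surjective (g i)) :
    ∃ (F : IntermediateField k Ω) (_ : IsGalois k F) (e : Gal(F/k) ≃* ∀ i, Q i),
      (∀ i, IsOpen {σ : Gal(F/k) | e σ i = 1}) ∧
      ∀ (J : Type) (s : J → ℕ), Function.Injective s → ∃ (F' : IntermediateField F Ω)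
        (_ : IsGalois F F') (e' : Gal(F'/F) ≃* ∀ j, G (s j)),
        ∀ j, IsOpen {σ : Gal(F'/F) | e' σ j = 1} := by
  classical
  obtain ⟨F, hF, e, he1, he2, he3⟩ := Pool.Agent.X285.PA.prod_field (fun i => (f i).comp (q i))
    (fun y => by
      choose w hw using fun i => hf i (y i)
      obtain ⟨σ, hσ⟩ := hsurj w
      refine ⟨σ, fun i => ?_⟩
      rw [MonoidHom.comp_apply, hσ, hw])
    (fun i => Subgroup.isOpen_mono (fun σ hσ => by
      rw [MonoidHom.mem_ker] at hσ
      rw [MonoidHom.mem_ker, MonoidHom.comp_apply, hσ, map_one]) (hopen i))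
  refine ⟨F, hF, e, he3, fun J s hs => ?_⟩
  have hmemF : ∀ σ : Gal(Ω/F), (restrictScalarsHom k σ : Gal(Ω/k)) ∈ F.fixingSubgroup := by
    intro σ
    rw [IntermediateField.mem_fixingSubgroup_iff]
    intro x hx
    exact σ.commutes ⟨x, hx⟩
  let r : ∀ i, Gal(Ω/F) →* (f i).ker := fun i =>
    ((q i).comp (restrictScalarsHom k : Gal(Ω/F) →* Gal(Ω/k))).codRestrict (f i).ker
      (fun σ => (he2 _).1 (hmemF σ) i)
  have hro : ∀ i, IsOpen ((r i).ker : Set Gal(Ω/F)) := by
    intro i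
    have h1 := Pool.Agent.X285.PA.open_res F (q i) (hopen i) (MonoidHom.normal_ker _)
    refine Subgroup.isOpen_mono (fun σ hσ => ?_) h1
    rw [MonoidHom.mem_ker] at hσ ⊢
    exact Subtype.ext hσ
  obtain ⟨F', hF', e', -, -, ho'⟩ := Pool.Agent.X285.PA.prod_field (k := F) (Ω := Ω)
    (A := fun j => G (s j))
    (fun j => (g (s j)).comp (r (s j)))
    (fun a => by
      have h1 : ∀ i, ∃ t : (f i).ker, ∀ j (h : s j = i), g i t = h ▸ a j := by
        intro i
        by_cases h : ∃ j, s j = i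
        · obtain ⟨j, rfl⟩ := h
          obtain ⟨w, hwa⟩ := hg (s j) (a j)
          refine ⟨w, fun j' h' => ?_⟩
          obtain rfl := hs h'
          exact hwa
        · exact ⟨1, fun j hj => absurd ⟨j, hj⟩ h⟩
      choose t hta using h1
      obtain ⟨σ, hσ⟩ := hsurj (fun i => (t i : A i))
      have hσF : σ ∈ F.fixingSubgroup := by
        rw [he2]
        intro i
        rw [MonoidHom.comp_apply, hσ]
        exact (t i).2
      refine ⟨fixingSubgroupEquiv F ⟨σ, hσF⟩, fun j => ?_⟩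
      refine Eq.trans ?_ (hta (s j) j rfl)
      rw [MonoidHom.comp_apply]
      congr 1
      apply Subtype.ext
      exact hσ (s j))
    (fun j => Subgroup.isOpen_mono (fun σ hσ => by
      rw [MonoidHom.mem_ker] at hσ
      rw [MonoidHom.mem_ker, MonoidHom.comp_apply, hσ, map_one]) (hro (s j)))
  exact ⟨F', hF', e', ho'⟩

end

end Pool.Agent.X325.PA
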