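import Mathlib
import Pool.Agent.X325.PA.Tw
import Pool.Agent.X325.PA.PerfG
import Pool.Agent.X285.PA.Cnc
import Pool.Agent.Y140.AW.Fin

/-!
# The inverse Galois problem over extensions with perfect group, characteristic `p ≠ 2`
-/

set_option autoImplicit false
set_option linter.unusedSectionVars false

namespace Pool.Agent.X325.PA

open Equiv Pool.Agent.H391R2 Pool.Agent.Y793
open Pool.Agent.TH444.TW (RegularOver)
open Pool.Agent.X285.PA (fmap gmap fmap_surj gmap_surj WW WW_le)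
open IntermediateField AlgEquiv

/-- The finite groups. -/
abbrev FGp : Type := Σ m : ℕ, Subgroup (Perm (Fin m))

theorem exists_fgp (H : Type) [Group H] [Finite H] : ∃ t : FGp, Nonempty (H ≃* t.2) := by
  let ε : H ≃ Fin (Nat.card H) := Finite.equivFin H
  let f : H →* Perm (Fin (Nat.card H)) := ε.permCongrHom.toMonoidHom.comp (MulAction.toPermHom H H)
  have hf : Function.Injective f :=
    ε.permCongrHom.injective.comp (MulAction.toPerm_injective (α := H) (β := H))
  exact ⟨⟨Nat.card H, f.range⟩, ⟨MonoidHom.ofInjective hf⟩⟩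

theorem exists_enum : ∃ t : ℕ → FGp, ∀ (ι : Type) [Countable ι] (H : ι → Type)
    [∀ i, Group (H i)] [∀ i, Finite (H i)], ∃ s : ι → ℕ, Function.Injective s ∧
      ∀ j, Nonempty (H j ≃* (t (s j)).2) := by
  have hn : Nonempty FGp := ⟨⟨0, ⊤⟩⟩
  have hc : Countable FGp := inferInstance
  obtain ⟨t, ht⟩ := exists_surjective_nat FGp
  refine ⟨fun i => t (Nat.unpair i).1, fun ι _ H _ _ => ?_⟩
  obtain ⟨ν, hν⟩ := exists_injective_nat ι
  have h1 : ∀ j, ∃ a, Nonempty (H j ≃* (t a).2) := by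
    intro j
    obtain ⟨u, hu⟩ := exists_fgp (H j)
    obtain ⟨a, rfl⟩ := ht u
    exact ⟨a, hu⟩
  choose a ha using h1
  refine ⟨fun j => Nat.pair (a j) (ν j), fun j j' h => ?_, fun j => ?_⟩
  · have h2 := congrArg (fun m => (Nat.unpair m).2) h
    simp only [Nat.unpair_pair] at h2
    exact hν h2
  · beta_reduce
    rw [Nat.unpair_pair]
    exact ha j

/-- The data for one group. -/
theorem data (p : ℕ) [Fact p.Prime] (hp : p ≠ 2) (G P : Type) [Group G] [Finite G] [Group P]
    [Finite P] [Nontrivial P] (hP : commutator P = ⊤) (n₀ : ℕ) :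
    ∃ n ≥ n₀, ∃ (A : Type) (_ : Group A) (_ : Finite A) (f : A →* AWr P n) (g : f.ker →* G),
      Function.Surjective f ∧ Function.Surjective g ∧
      ∀ (K : Type) [Field K] [CharP K p], RegularOver K A := by
  obtain ⟨Q, i1, i2, π, c, hQ, hπ, hc⟩ := exists_cover G P hP
  obtain ⟨n, hn, -, -, h3⟩ :=
    Pool.Agent.Y140.AW.out_of Pool.Agent.Y140.AW.t_main p hp Q hQ (n₀ + 5)
  have hf : Finite (Wr Q n) := Pool.Agent.H391R2.T4.finite_wr Q n
  have hX : AWr Q n ≤ AWr Q n := le_rfl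
  let j₀ : Fin n := ⟨0, by omega⟩
  refine ⟨n, by omega, AWr Q n, inferInstance, inferInstance, fmap π n (AWr Q n) hX,
    gmap π (AWr Q n) hX j₀ c, fun y => ?_, fun a => ?_, fun K _ _ => (h3 K).1⟩
  · obtain ⟨w, -, hw⟩ := fmap_surj π hπ hP (AWr Q n) hX WW_le y
    exact ⟨w, hw⟩
  · obtain ⟨w, hw, -, hwa⟩ := gmap_surj π (AWr Q n) hX WW_le (by omega) j₀ c hc a
    exact ⟨⟨w, hw⟩, hwa⟩

/-- The extension `F / k` with a realization of all finite groups; `T` is a property of subfields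
and their extensions. -/
def Out (k : Type) [Field k] (P : ℕ → Type) [∀ i, Group (P i)] (n : ℕ → ℕ) (K : Type) [Field K]
    [Algebra K k] : Prop :=
  ∃ (F : Type) (_ : Field F) (_ : Algebra k F) (_ : Algebra K F) (_ : IsScalarTower K k F)
    (_ : IsGalois k F) (e : (F ≃ₐ[k] F) ≃* ∀ i, AWr (P i) (n i)),
    (∀ i, IsOpen {σ : F ≃ₐ[k] F | e σ i = 1}) ∧
    (∀ E : IntermediateField k F, FiniteDimensional k E → IsGalois k E →
      Group.IsSolvable (E ≃ₐ[k] E) → E = ⊥) ∧
    (∀ y : F, IsAlgebraic K y → y ∈ Set.range (algebraMap K F)) ∧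
    ∀ (ι : Type) [Countable ι] (G : ι → Type) [∀ i, Group (G i)] [∀ i, Finite (G i)],
      ∃ (F' : Type) (_ : Field F') (_ : Algebra F F') (_ : Algebra K F') (_ : IsScalarTower K F F')
        (_ : IsGalois F F') (e' : (F' ≃ₐ[F] F') ≃* ∀ i, G i),
        (∀ i, IsOpen {σ : F' ≃ₐ[F] F' | e' σ i = 1}) ∧
        ∀ y : F', IsAlgebraic K y → y ∈ Set.range (algebraMap K F')

/-- The same without constants. -/
def Out' (k : Type) [Field k] (P : ℕ → Type) [∀ i, Group (P i)] (n : ℕ → ℕ) : Prop :=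
  ∃ (F : Type) (_ : Field F) (_ : Algebra k F)
    (_ : IsGalois k F) (e : (F ≃ₐ[k] F) ≃* ∀ i, AWr (P i) (n i)),
    (∀ i, IsOpen {σ : F ≃ₐ[k] F | e σ i = 1}) ∧
    (∀ E : IntermediateField k F, FiniteDimensional k E → IsGalois k E →
      Group.IsSolvable (E ≃ₐ[k] E) → E = ⊥) ∧
    ∀ (ι : Type) [Countable ι] (G : ι → Type) [∀ i, Group (G i)] [∀ i, Finite (G i)],
      ∃ (F' : Type) (_ : Field F') (_ : Algebra F F')
        (_ : IsGalois F F') (e' : (F' ≃ₐ[F] F') ≃* ∀ i, G i),
        ∀ i, IsOpen {σ : F' ≃ₐ[F] F' | e' σ i = 1}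

theorem open_congr {F F' : Type} [Field F] [Field F'] [Algebra F F'] {ι : Type} {G H : ι → Type}
    [∀ i, Group (G i)] [∀ i, Group (H i)] (u : ∀ i, H i ≃* G i)
    (e : (F' ≃ₐ[F] F') ≃* ∀ i, G i) (he : ∀ i, IsOpen {σ : F' ≃ₐ[F] F' | e σ i = 1}) (i : ι) :
    IsOpen {σ : F' ≃ₐ[F] F' | (e.trans (MulEquiv.piCongrRight fun j => (u j).symm)) σ i = 1} := by
  have h1 : {σ : F' ≃ₐ[F] F' | (e.trans (MulEquiv.piCongrRight fun j => (u j).symm)) σ i = 1} =
      {σ : F' ≃ₐ[F] F' | e σ i = 1} := by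
    ext σ
    change (u i).symm (e σ i) = 1 ↔ e σ i = 1
    exact map_eq_one_iff _ (u i).symm.injective
  rw [h1]
  exact he i

theorem main (p : ℕ) [Fact p.Prime] (hp : p ≠ 2) (P : ℕ → Type) [∀ i, Group (P i)]
    [∀ i, Finite (P i)] [∀ i, Nontrivial (P i)] (hP : ∀ i, commutator (P i) = ⊤) (b : ℕ) :
    ∃ n : ℕ → ℕ, StrictMono n ∧ (∀ i, b ≤ n i) ∧ (∀ i, commutator (AWr (P i) (n i)) = ⊤) ∧
      ∀ (K : Type) [Field K] [CharP K p], Out (RatFunc K) P n K ∧
        (Pool.Agent.H391R2.T4.HilbField K → Out' K P n) := by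
  classical
  obtain ⟨t, ht⟩ := exists_enum
  choose N hN A iA fA f g hf hg hreg using fun i n₀ => data p hp (t i).2 (P i) (hP i) n₀
  let m : ℕ → ℕ := fun i => Nat.rec (b + 5) (fun i r => N i r + 1) i
  have hm : ∀ i, m (i + 1) = N i (m i) + 1 := fun i => rfl
  let n : ℕ → ℕ := fun i => N i (m i)
  have hnm : ∀ i, m i ≤ n i := fun i => hN i (m i)
  have hn : StrictMono n := strictMono_nat_of_lt_succ fun i => by
    have h1 := hnm (i + 1)
    rw [hm] at h1
    exact h1
  have hbm : ∀ i, b + 5 ≤ m i := by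
    intro i
    induction i with
    | zero => exact le_rfl
    | succ i ih =>
      have := hnm i
      rw [hm]
      change b + 5 ≤ n i + 1
      omega
  have hperf : ∀ i, commutator (AWr (P i) (n i)) = ⊤ := fun i =>
    Pool.Agent.Y241.WR.t_perf _ (hP i) _ (by have := hbm i; have := hnm i; omega)
  refine ⟨n, hn, fun i => by have := hbm i; have := hnm i; omega, hperf, fun K _ _ => ⟨?_, ?_⟩⟩
  · obtain ⟨Ω, i1, i2, i3, i4, i5, q, hq1, hq2, hq3⟩ := prod_regular K (fun i => A i (m i))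
      (fun i => hreg i (m i) K)
    obtain ⟨F, hF, e, he, hout⟩ := fields (k := RatFunc K) (Ω := Ω) (fun i => A i (m i)) q hq1 hq2
      (fun i => AWr (P i) (n i)) (fun i => f i (m i)) (fun i => hf i (m i))
      (fun i => (t i).2) (fun i => g i (m i)) (fun i => hg i (m i))
    let _ : Algebra K F := ((algebraMap (RatFunc K) F).comp (algebraMap K (RatFunc K))).toAlgebra
    have t1 : IsScalarTower K (RatFunc K) F := IsScalarTower.of_algebraMap_eq fun _ => rfl
    have t2 : IsScalarTower K F Ω := IsScalarTower.of_algebraMap_eq fun x => by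
      rw [IsScalarTower.algebraMap_apply K (RatFunc K) Ω,
        IsScalarTower.algebraMap_apply K (RatFunc K) F,
        ← IsScalarTower.algebraMap_apply (RatFunc K) F Ω]
    have hregF : ∀ y : F, IsAlgebraic K y → y ∈ Set.range (algebraMap K F) := by
      intro y hy
      obtain ⟨x, hx⟩ := hq3 (algebraMap F Ω y) hy.algebraMap
      refine ⟨x, (algebraMap F Ω).injective ?_⟩
      rw [← IsScalarTower.algebraMap_apply K F Ω, hx]
    refine ⟨F, inferInstance, inferInstance, inferInstance, t1, hF, e, he, fun E _ _ hE =>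
      Pool.Agent.X285.PA.no_solv _ e he hperf E hE, hregF, fun ι _ G _ _ => ?_⟩
    obtain ⟨s, hs, hsG⟩ := ht ι G
    obtain ⟨F', hF', e', he'⟩ := hout ι s hs
    let _ : Algebra K F' := ((algebraMap F F').comp (algebraMap K F)).toAlgebra
    have t3 : IsScalarTower K F F' := IsScalarTower.of_algebraMap_eq fun _ => rfl
    have t4 : IsScalarTower K F' Ω := IsScalarTower.of_algebraMap_eq fun x => by
      rw [IsScalarTower.algebraMap_apply K F Ω,
        IsScalarTower.algebraMap_apply K F F',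
        ← IsScalarTower.algebraMap_apply F F' Ω]
    refine ⟨F', inferInstance, inferInstance, inferInstance, t3, hF',
      e'.trans (MulEquiv.piCongrRight fun j => (Classical.choice (hsG j)).symm),
      open_congr _ e' he', fun y hy => ?_⟩
    obtain ⟨x, hx⟩ := hq3 (algebraMap F' Ω y) hy.algebraMap
    refine ⟨x, (algebraMap F' Ω).injective ?_⟩
    rw [← IsScalarTower.algebraMap_apply K F' Ω, hx]
  · intro hK
    obtain ⟨Ω, i1, i2, i5, q, hq1, hq2⟩ := prod_hilb K hK (fun i => A i (m i))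
      (fun i => hreg i (m i) K)
    obtain ⟨F, hF, e, he, hout⟩ := fields (k := K) (Ω := Ω) (fun i => A i (m i)) q hq1 hq2
      (fun i => AWr (P i) (n i)) (fun i => f i (m i)) (fun i => hf i (m i))
      (fun i => (t i).2) (fun i => g i (m i)) (fun i => hg i (m i))
    refine ⟨F, inferInstance, inferInstance, hF, e, he, fun E _ _ hE =>
      Pool.Agent.X285.PA.no_solv _ e he hperf E hE, fun ι _ G _ _ => ?_⟩
    obtain ⟨s, hs, hsG⟩ := ht ι G
    obtain ⟨F', hF', e', he'⟩ := hout ι s hs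
    exact ⟨F', inferInstance, inferInstance, hF',
      e'.trans (MulEquiv.piCongrRight fun j => (Classical.choice (hsG j)).symm),
      open_congr _ e' he'⟩

end Pool.Agent.X325.PA
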